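import Pool.Agent.V1162.MM.Dist

set_option autoImplicit false

namespace Pool.Agent.Results.MP_c6938d_co.AllBlockNumbers

open Pool.Agent.V1162.MM

/-- Q1 holds: for every `d ≥ 3` there is a real `β > 0` such that (a) some covering design with `d`
(pairwise different) blocks has frequency at most `β`, and (b) every covering design with `d`
blocks, repeated blocks allowed, and frequency at most `β` has a scaled version admitting a
multi-matching. -/
theorem result : ∀ d : ℕ, 3 ≤ d → ∃ β : ℝ, 0 < β ∧
    (∃ (v k : ℕ) (B : Fin d → Finset (Fin v)), 2 ≤ v ∧ 2 ≤ k ∧ IsCovering k B ∧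
      Function.Injective B ∧ freq d v k ≤ β) ∧
    ∀ (v k : ℕ) (B : Fin d → Finset (Fin v)), 2 ≤ v → 2 ≤ k → IsCovering k B →
      freq d v k ≤ β → ScaledMultiMatching B := by
  intro d h
  obtain ⟨β, h0, ha, hb⟩ := good_all h
  exact ⟨β, h0, distinct_of h ha, hb⟩

end Pool.Agent.Results.MP_c6938d_co.AllBlockNumbers
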